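import Pool.Agent.Work.MP_0863b8_nt.FIN.All

/-!
# The inhomogeneous Duffin-Schaeffer theorem

For every real `δ` and every `Φ ≥ 0` with (H1) and (H2), for almost every `β` there are infinitely
many `n ≥ 1` with `‖n β - δ‖ < Φ n`.  No monotonicity, no hypothesis on `δ`.  The paper proof is in
`Pool/Agent/Work/MP_0863b8_nt/PROOF.md`.
-/

set_option autoImplicit false

namespace Pool.Agent.Results.MP_0863b8_nt.DuffinSchaeffer

open MeasureTheory Filter

/-- distance to the nearest integer -/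
noncomputable def dist (x : ℝ) : ℝ := |x - round x|

/-- condition (H1) -/
def H1 (Φ : ℕ → ℝ) : Prop :=
  Tendsto (fun N : ℕ => ∑ n ∈ Finset.Icc 1 N, (Nat.totient n : ℝ) / n * Φ n) atTop atTop

/-- condition (H2) -/
def H2 (Φ : ℕ → ℝ) : Prop :=
  0 < limsup (fun N : ℕ => (∑ n ∈ Finset.Icc 1 N, (Nat.totient n : ℝ) / n * Φ n) *
    (∑ n ∈ Finset.Icc 1 N, Φ n)⁻¹) atTop

/-- **Inhomogeneous Duffin-Schaeffer theorem.**  For every real `δ` and every `Φ ≥ 0` satisfying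
(H1) and (H2), for almost every real `β` there are infinitely many `n ≥ 1` with
`‖n β - δ‖ < Φ n`. -/
theorem result (δ : ℝ) (Φ : ℕ → ℝ) (h0 : ∀ n, 0 ≤ Φ n) (h1 : H1 Φ) (h2 : H2 Φ) :
    ∀ᵐ β : ℝ, {n : ℕ | 1 ≤ n ∧ dist (n * β - δ) < Φ n}.Infinite :=
  MP_0863b8.FIN.fullStmt δ Φ h0 h1 h2

end Pool.Agent.Results.MP_0863b8_nt.DuffinSchaeffer
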